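import Mathlib
import Pool.Agent.H485R3.Kron

/-!
# Multiplicative relations between Weil numbers and their slopes
-/

set_option autoImplicit false

namespace Pool.Agent.D0H66.BP

open Polynomial

/-- `α` is a Weil number of weight `i` relative to `q`, a power of `p`, whose slopes have the
denominator `m`: `α` is a root of a monic integral polynomial, all complex roots of which have absolute
value `q ^ (i / 2)` and all `p`-adic roots of which have the valuation `a / m` for an integer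
`0 ≤ a ≤ m i`, if the valuation is normalised so that `q` has valuation one. -/
def IsWeilNumber (p : ℕ) [Fact p.Prime] (q i m : ℕ) {K : Type*} [Field K] (α : K) : Prop :=
  ∃ P : ℤ[X], P.Monic ∧ aeval α P = 0 ∧ (∀ z : ℂ, aeval z P = 0 → ‖z‖ ^ 2 = (q : ℝ) ^ i) ∧
    ∀ z : PadicAlgCl p, aeval z P = 0 → ∃ a : ℕ, a ≤ m * i ∧ ‖z‖ ^ m = ‖(q : PadicAlgCl p)‖ ^ a

section

variable {ι : Type*} [Fintype ι] {p : ℕ} [Fact p.Prime] {q m : ℕ}

lemma norm_q_pos (hq : q ≠ 0) : 0 < ‖(q : PadicAlgCl p)‖ := by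
  rw [norm_pos_iff]
  exact_mod_cast hq

lemma norm_q_lt {e : ℕ} (he : 0 < e) : ‖((p ^ e : ℕ) : PadicAlgCl p)‖ < 1 := by
  have h1 : ((p ^ e : ℕ) : PadicAlgCl p) = (((p ^ e : ℕ) : ℚ_[p]) : PadicAlgCl p) := by
    rw [map_natCast]
  rw [h1, PadicAlgCl.norm_extends, Nat.cast_pow, norm_pow, Padic.norm_p]
  refine pow_lt_one₀ (by positivity) ?_ he.ne'
  rw [inv_lt_one₀ (by exact_mod_cast (Fact.out : p.Prime).pos)]
  exact_mod_cast (Fact.out : p.Prime).one_lt

lemma norm_natCast_ne {l : ℕ} [Fact l.Prime] {e : ℕ} (h : l ≠ p) :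
    ‖((p ^ e : ℕ) : PadicAlgCl l)‖ = 1 := by
  have h1 : ((p ^ e : ℕ) : PadicAlgCl l) = (((p ^ e : ℕ) : ℚ_[l]) : PadicAlgCl l) := by
    rw [map_natCast]
  rw [h1, PadicAlgCl.norm_extends, Nat.cast_pow, norm_pow]
  have h2 : ‖(p : ℚ_[l])‖ = 1 := by
    rw [Padic.norm_natCast_eq_one_iff]
    exact (Nat.coprime_primes Fact.out Fact.out).2 h
  rw [h2, one_pow]

/-- an integral element has norm at most one -/
lemma norm_le_one_of_root {l : ℕ} [Fact l.Prime] {P : ℤ[X]} (hP : P.Monic) {z : PadicAlgCl l}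
    (hz : aeval z P = 0) : ‖z‖ ≤ 1 := by
  by_contra hlt
  push Not at hlt
  have h1 : z ^ P.natDegree = - ∑ i ∈ Finset.range P.natDegree, (P.coeff i : PadicAlgCl l) * z ^ i := by
    have h2 := hz
    rw [aeval_eq_sum_range, Finset.sum_range_succ, hP.coeff_natDegree, one_smul] at h2
    rw [eq_neg_iff_add_eq_zero, ← h2, add_comm]
    congr 1
    exact Finset.sum_congr rfl fun i _ => by rw [zsmul_eq_mul]
  rcases Nat.eq_zero_or_pos P.natDegree with h0 | h0
  · rw [h0, Finset.range_zero, Finset.sum_empty, neg_zero, pow_zero] at h1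
    exact one_ne_zero h1
  have hint : ∀ n : ℤ, ‖(n : PadicAlgCl l)‖ ≤ 1 := by
    intro n
    have h3 : ((n : ℤ) : PadicAlgCl l) = (((n : ℤ) : ℚ_[l]) : PadicAlgCl l) := by
      rw [map_intCast]
    rw [h3, PadicAlgCl.norm_extends]
    exact Padic.norm_int_le_one n
  have h2 : ‖z ^ P.natDegree‖ ≤ ‖z‖ ^ (P.natDegree - 1) := by
    rw [h1, norm_neg]
    refine IsUltrametricDist.norm_sum_le_of_forall_le_of_nonneg (by positivity) ?_
    intro i hi
    rw [norm_mul, norm_pow]
    have h3 : ‖z‖ ^ i ≤ ‖z‖ ^ (P.natDegree - 1) :=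
      pow_le_pow_right₀ hlt.le (by have := Finset.mem_range.1 hi; omega)
    calc _ ≤ 1 * ‖z‖ ^ (P.natDegree - 1) :=
          mul_le_mul (hint _) h3 (by positivity) zero_le_one
      _ = _ := one_mul _
  rw [norm_pow] at h2
  have h4 : ‖z‖ ^ (P.natDegree - 1) < ‖z‖ ^ P.natDegree := pow_lt_pow_right₀ hlt (by omega)
  exact absurd h2 (not_le.2 h4)

/-- **Relations and slopes.** -/
theorem exists_rows {e : ℕ} (he : 0 < e) (hq : q = p ^ e) (hm : 0 < m) {Ω : Type*} [Field Ω]
    [CharZero Ω] [IsAlgClosed Ω] (α : ι → Ω) (w : ι → ℕ)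
    (hα : ∀ l, IsWeilNumber p q (w l) m (α l)) :
    ∃ R : Set (ι → ℤ), (∀ r ∈ R, ∀ i, |r i| ≤ ((m * w i : ℕ) : ℤ)) ∧
      ∀ c : ι → ℕ, Even (∑ i, c i * w i) →
        ((∀ r ∈ R, ∑ i, (c i : ℤ) * r i = 0) ↔
          ∃ s, 0 < s ∧ (∏ i, α i ^ c i) ^ s = ((q : Ω) ^ ((∑ i, c i * w i) / 2)) ^ s) := by
  classical
  have hp : p.Prime := Fact.out
  have hq0 : q ≠ 0 := by rw [hq]; exact pow_ne_zero _ hp.ne_zero
  choose P hPm hPα hPC hPp using hα
  let Q : ℚ[X] := ∏ l, (P l).map (Int.castRingHom ℚ)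
  have hQ0 : Q ≠ 0 := Finset.prod_ne_zero_iff.2 fun l _ => ((hPm l).map _).ne_zero
  have hsp : (Q.map (algebraMap ℚ Ω)).Splits := IsAlgClosed.splits _
  let L : IntermediateField ℚ Ω := IntermediateField.adjoin ℚ (Q.rootSet Ω)
  have hSF : IsSplittingField ℚ L Q := IntermediateField.adjoin_rootSet_isSplittingField hsp
  have hnorm : Normal ℚ L := Normal.of_isSplittingField Q
  have hfd : FiniteDimensional ℚ L := IsSplittingField.finiteDimensional L Q
  have haev : ∀ {A : Type _} [Field A] [CharZero A] [Algebra ℚ A] (z : A) (l : ι),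
      aeval z ((P l).map (Int.castRingHom ℚ)) = aeval z (P l) := by
    intro A _ _ _ z l
    rw [show Int.castRingHom ℚ = algebraMap ℤ ℚ from rfl, aeval_map_algebraMap]
  have hmem : ∀ l, α l ∈ L := by
    intro l
    refine IntermediateField.subset_adjoin ℚ _ ?_
    rw [mem_rootSet]
    refine ⟨hQ0, ?_⟩
    simp only [Q]
    rw [map_prod]
    refine Finset.prod_eq_zero (Finset.mem_univ l) ?_
    rw [haev, hPα]
  let a : ι → L := fun l => ⟨α l, hmem l⟩
  have ha : ∀ l, aeval (a l) (P l) = 0 := by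
    intro l
    apply (algebraMap L Ω).injective
    rw [map_zero, ← aeval_algebraMap_apply]
    exact hPα l
  have hroot : ∀ {A : Type _} [Field A] [Algebra ℚ A] (φ : L →ₐ[ℚ] A) (l : ι),
      aeval (φ (a l)) (P l) = 0 := by
    intro A _ _ φ l
    have h1 : aeval (φ (a l)) (P l) = (φ : L →+* A) (aeval (a l) (P l)) := by
      rw [aeval_def, aeval_def, hom_eval₂]
      congr 1
      exact RingHom.ext_int _ _
    rw [h1, ha, map_zero]
  have hqnorm := norm_q_pos (p := p) hq0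
  have hqnorm1 : ‖(q : PadicAlgCl p)‖ < 1 := by rw [hq]; exact norm_q_lt he
  have hinj : ∀ x y : ℕ, ‖(q : PadicAlgCl p)‖ ^ x = ‖(q : PadicAlgCl p)‖ ^ y → x = y :=
    fun x y h => pow_right_injective₀ hqnorm hqnorm1.ne h
  refine ⟨{r | ∃ (φ : L →ₐ[ℚ] PadicAlgCl p) (b : ι → ℕ), (∀ l, b l ≤ m * w l) ∧
      (∀ l, ‖φ (a l)‖ ^ m = ‖(q : PadicAlgCl p)‖ ^ b l) ∧
      ∀ l, r l = 2 * (b l : ℤ) - (m * w l : ℕ)}, ?_, ?_⟩
  · rintro r ⟨φ, b, hb, -, hr⟩ i
    rw [hr, abs_le]
    have := hb i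
    constructor <;> omega
  intro c hc
  obtain ⟨h, hh⟩ := hc
  have hh2 : (∑ i, c i * w i) / 2 = h := by omega
  rw [hh2]
  -- the product in `L`
  let x : L := ∏ i, a i ^ c i
  have hxΩ : (x : Ω) = ∏ i, α i ^ c i := by
    simp only [x]
    rw [← IntermediateField.algebraMap_apply, map_prod]
    exact Finset.prod_congr rfl fun i _ => by rw [map_pow]; rfl
  have hnx : ∀ (φ : L →ₐ[ℚ] PadicAlgCl p) (b : ι → ℕ),
      (∀ l, ‖φ (a l)‖ ^ m = ‖(q : PadicAlgCl p)‖ ^ b l) →
      ‖φ x‖ ^ m = ‖(q : PadicAlgCl p)‖ ^ (∑ l, c l * b l) := by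
    intro φ b hb
    simp only [x]
    rw [map_prod, norm_prod, ← Finset.prod_pow, ← Finset.prod_pow_eq_pow_sum]
    refine Finset.prod_congr rfl fun l _ => ?_
    rw [map_pow, norm_pow, ← pow_mul, mul_comm (c l) m, pow_mul, hb, ← pow_mul, mul_comm (b l)]
  have hsumrow : ∀ (b : ι → ℕ) (r : ι → ℤ), (∀ l, r l = 2 * (b l : ℤ) - (m * w l : ℕ)) →
      ∑ i, (c i : ℤ) * r i = 2 * ((∑ l, c l * b l : ℕ) : ℤ) - m * (2 * h) := by
    intro b r hr
    have h1 : ((∑ i, c i * w i : ℕ) : ℤ) = 2 * h := by rw [hh]; push_cast; ring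
    rw [← h1]
    push_cast
    rw [Finset.mul_sum, Finset.mul_sum, ← Finset.sum_sub_distrib]
    refine Finset.sum_congr rfl fun i _ => ?_
    rw [hr]
    push_cast
    ring
  constructor
  · intro hR
    -- the quotient is a root of unity
    let y : L := x / (q : L) ^ h
    have hqL : (q : L) ≠ 0 := by
      have : CharZero L := inferInstance
      exact_mod_cast hq0
    have hyint : IsIntegral ℤ y := by
      refine Pool.Agent.H485R3.isIntegral_of_norm_le y ?_
      intro l _ φ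
      by_cases hl : l = p
      · subst hl
        choose b hb1 hb2 using fun i => hPp i (φ (a i)) (hroot φ i)
        have h1 := hR _ ⟨φ, b, hb1, hb2, fun l => rfl⟩
        rw [hsumrow b _ fun l => rfl] at h1
        have h2 : ∑ l, c l * b l = h * m := by
          have h3 : ((∑ l, c l * b l : ℕ) : ℤ) = h * m := by linarith
          exact_mod_cast h3
        have h4 : ‖φ y‖ ^ m = 1 := by
          simp only [y]
          rw [map_div₀, map_pow, map_natCast, norm_div, norm_pow, div_pow, hnx φ b hb2, h2,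
            ← pow_mul, div_self (pow_ne_zero _ hqnorm.ne')]
        exact ((pow_eq_one_iff_of_nonneg (norm_nonneg _) hm.ne').1 h4).le
      · simp only [y]
        rw [map_div₀, map_pow, map_natCast, norm_div, norm_pow, hq, norm_natCast_ne hl, one_pow,
          div_one]
        simp only [x]
        rw [map_prod, norm_prod]
        refine Finset.prod_le_one (fun i _ => norm_nonneg _) fun i _ => ?_
        rw [map_pow, norm_pow]
        exact pow_le_one₀ (norm_nonneg _) (norm_le_one_of_root (hPm i) (hroot φ i))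
    have hycpx : ∀ φ : L →ₐ[ℚ] ℂ, ‖φ y‖ = 1 := by
      intro φ
      have h1 : ‖φ y‖ ^ 2 = 1 := by
        simp only [y, x]
        rw [map_div₀, map_pow, map_natCast, map_prod, norm_div, norm_pow, norm_prod, div_pow,
          ← Finset.prod_pow]
        have h2 : ∀ i ∈ (Finset.univ : Finset ι), ‖φ (a i ^ c i)‖ ^ 2 = (q : ℝ) ^ (c i * w i) := by
          intro i _
          rw [map_pow, norm_pow, ← pow_mul, mul_comm (c i) 2, pow_mul, hPC i _ (hroot φ i),
            ← pow_mul, mul_comm (w i)]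
        rw [Finset.prod_congr rfl h2, Finset.prod_pow_eq_pow_sum, hh, Complex.norm_natCast,
          ← pow_mul, ← two_mul, mul_comm h 2, div_self]
        exact pow_ne_zero _ (by exact_mod_cast hq0)
      exact (pow_eq_one_iff_of_nonneg (norm_nonneg _) two_ne_zero).1 h1
    obtain ⟨n, hn, hyn⟩ := Pool.Agent.H485R3.pow_eq_one_of_norm y hyint hycpx
    refine ⟨n, hn, ?_⟩
    simp only [y] at hyn
    rw [div_pow, div_eq_one_iff_eq (pow_ne_zero _ (pow_ne_zero _ hqL))] at hyn
    have h5 := congrArg (algebraMap L Ω) hyn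
    rw [map_pow, map_pow, map_pow, map_natCast] at h5
    rw [← hxΩ]
    exact h5
  · rintro ⟨s, hs, hrel⟩ r ⟨φ, b, -, hb, hr⟩
    have h1 : x ^ s = ((q : L) ^ h) ^ s := by
      apply (algebraMap L Ω).injective
      rw [map_pow, map_pow, map_pow, map_natCast]
      change (x : Ω) ^ s = _
      rw [hxΩ]
      exact hrel
    have h2 : ‖φ x‖ ^ m = ‖(q : PadicAlgCl p)‖ ^ (h * m) := by
      have h3 := congrArg (fun z => ‖φ z‖) h1
      simp only [map_pow, map_natCast, norm_pow] at h3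
      have h4 : ‖φ x‖ = ‖(q : PadicAlgCl p)‖ ^ h :=
        (pow_left_inj₀ (norm_nonneg _) (by positivity) hs.ne').1 h3
      rw [h4, ← pow_mul]
    rw [hnx φ b hb] at h2
    have h3 := hinj _ _ h2
    rw [hsumrow b r hr, h3]
    push_cast
    ring

end

end Pool.Agent.D0H66.BP
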